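import Mathlib

set_option autoImplicit false

namespace Pool.Agent.Results.MP_c624c9_nt.FirstPellianIterate

/-- The `i`-th convergent of the simple continued fraction of `√k` (Mathlib's continued fraction
of a real number). -/
noncomputable def conv (k i : ℕ) : ℝ := (GenContFract.of (Real.sqrt k)).convs i

/-- `R(k,d) = 4 d² / (k - d²)`. -/
noncomputable def R (k : ℕ) (d : ℝ) : ℝ := 4 * d ^ 2 / (k - d ^ 2)

/-- `x` is an integer. -/
def IsInt (x : ℝ) : Prop := ∃ z : ℤ, x = z

/-- `d = d(k)`: the convergent of `√k` of smallest index for which `R(k,d)` is an integer. -/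
def IsSeed (k : ℕ) (d : ℝ) : Prop :=
  ∃ i, d = conv k i ∧ IsInt (R k (conv k i)) ∧ ∀ j < i, ¬ IsInt (R k (conv k j))

/-- `x = p/q` in lowest terms, `p, q > 0`, with `p² - k q² = ± 1`. -/
def Pellian (k : ℕ) (x : ℝ) : Prop :=
  ∃ p q : ℕ, 0 < p ∧ 0 < q ∧ Nat.Coprime p q ∧
    ((p : ℤ) ^ 2 - k * (q : ℤ) ^ 2 = 1 ∨ (p : ℤ) ^ 2 - k * (q : ℤ) ^ 2 = -1) ∧ x = p / q

/-- `x` is the first Pellian convergent of `√k`. -/
def IsFirstPellianConvergent (k : ℕ) (x : ℝ) : Prop :=
  ∃ i, x = conv k i ∧ Pellian k (conv k i) ∧ ∀ j < i, ¬ Pellian k (conv k j)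

/-- `orbit k d n` is the iterate `f_dⁿ⁺¹(∞)`, where `f_d(x) = (d x + k)/(x + d)`; so
`orbit k d 0 = f_d(∞) = d`. -/
noncomputable def orbit (k : ℕ) (d : ℝ) : ℕ → ℝ
  | 0 => d
  | (n + 1) => (d * orbit k d n + k) / (orbit k d n + d)

/-- `x` is the first iterate `f_dⁿ(∞)`, `n ≥ 1`, that is Pellian. -/
def IsFirstPellianIterate (k : ℕ) (d x : ℝ) : Prop :=
  ∃ n, x = orbit k d n ∧ Pellian k (orbit k d n) ∧ ∀ m < n, ¬ Pellian k (orbit k d m)

/-! ### The continued fraction of `√375` -/

theorem s_lo : (19.36 : ℝ) < Real.sqrt 375 := by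
  rw [Real.lt_sqrt (by norm_num)]; norm_num

theorem s_hi : Real.sqrt 375 < (19.37 : ℝ) := by
  rw [Real.sqrt_lt' (by norm_num)]; norm_num

theorem s_sq : Real.sqrt 375 ^ 2 = 375 := Real.sq_sqrt (by norm_num)

theorem floor_aux {P Q : ℝ} {a : ℤ} (hQ : 0 < Q) (h1 : a * Q ≤ 19.36 + P)
    (h2 : 19.37 + P ≤ (a + 1) * Q) : ⌊(Real.sqrt 375 + P) / Q⌋ = a := by
  rw [Int.floor_eq_iff]
  have := s_lo
  have := s_hi
  constructor
  · rw [le_div_iff₀ hQ]; linarith
  · rw [div_lt_iff₀ hQ]; linarith

theorem inv_aux {P Q P' Q' : ℝ} {a : ℤ} (hQ : 0 < Q) (hQ' : 0 < Q') (h1 : P' = a * Q - P)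
    (h2 : Q * Q' = 375 - P' ^ 2) :
    ((Real.sqrt 375 + P) / Q - a)⁻¹ = (Real.sqrt 375 + P') / Q' := by
  have h3 : (Real.sqrt 375 + P) / Q - a = (Real.sqrt 375 - P') / Q := by
    rw [h1]; field_simp; ring
  rw [h3, inv_div]
  have h4 : (Real.sqrt 375 - P') * (Real.sqrt 375 + P') = Q * Q' := by
    linear_combination s_sq - h2
  have h5 : Real.sqrt 375 - P' ≠ 0 := by
    intro h; rw [h, zero_mul] at h4
    have : 0 < Q * Q' := mul_pos hQ hQ'
    linarith
  rw [div_eq_div_iff h5 hQ'.ne']
  linear_combination -h4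

theorem conv_eq (n : ℕ) : conv 375 n = (GenContFract.of ((Real.sqrt 375 + 0) / 1)).convs n := by
  unfold conv
  congr 2
  norm_num

theorem fl0 : ⌊((Real.sqrt 375 + 0) / 1)⌋ = 19 := floor_aux (by norm_num) (by norm_num) (by norm_num)

theorem z0 : (GenContFract.of ((Real.sqrt 375 + 0) / 1)).convs 0 = 19 := by
  rw [GenContFract.zeroth_conv_eq_h, GenContFract.of_h_eq_floor, fl0]; norm_num

theorem st0 (n : ℕ) : (GenContFract.of ((Real.sqrt 375 + 0) / 1)).convs (n + 1) =
    19 + 1 / (GenContFract.of ((Real.sqrt 375 + 19) / 14)).convs n := by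
  rw [GenContFract.convs_succ, Int.fract, fl0, inv_aux (P' := 19) (Q' := 14) (by norm_num)
    (by norm_num) (by norm_num) (by norm_num)]
  norm_num

theorem fl1 : ⌊((Real.sqrt 375 + 19) / 14)⌋ = 2 := floor_aux (by norm_num) (by norm_num) (by norm_num)

theorem z1 : (GenContFract.of ((Real.sqrt 375 + 19) / 14)).convs 0 = 2 := by
  rw [GenContFract.zeroth_conv_eq_h, GenContFract.of_h_eq_floor, fl1]; norm_num

theorem st1 (n : ℕ) : (GenContFract.of ((Real.sqrt 375 + 19) / 14)).convs (n + 1) =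
    2 + 1 / (GenContFract.of ((Real.sqrt 375 + 9) / 21)).convs n := by
  rw [GenContFract.convs_succ, Int.fract, fl1, inv_aux (P' := 9) (Q' := 21) (by norm_num)
    (by norm_num) (by norm_num) (by norm_num)]
  norm_num

theorem fl2 : ⌊((Real.sqrt 375 + 9) / 21)⌋ = 1 := floor_aux (by norm_num) (by norm_num) (by norm_num)

theorem z2 : (GenContFract.of ((Real.sqrt 375 + 9) / 21)).convs 0 = 1 := by
  rw [GenContFract.zeroth_conv_eq_h, GenContFract.of_h_eq_floor, fl2]; norm_num

theorem st2 (n : ℕ) : (GenContFract.of ((Real.sqrt 375 + 9) / 21)).convs (n + 1) =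
    1 + 1 / (GenContFract.of ((Real.sqrt 375 + 12) / 11)).convs n := by
  rw [GenContFract.convs_succ, Int.fract, fl2, inv_aux (P' := 12) (Q' := 11) (by norm_num)
    (by norm_num) (by norm_num) (by norm_num)]
  norm_num

theorem fl3 : ⌊((Real.sqrt 375 + 12) / 11)⌋ = 2 := floor_aux (by norm_num) (by norm_num) (by norm_num)

theorem z3 : (GenContFract.of ((Real.sqrt 375 + 12) / 11)).convs 0 = 2 := by
  rw [GenContFract.zeroth_conv_eq_h, GenContFract.of_h_eq_floor, fl3]; norm_num

theorem st3 (n : ℕ) : (GenContFract.of ((Real.sqrt 375 + 12) / 11)).convs (n + 1) =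
    2 + 1 / (GenContFract.of ((Real.sqrt 375 + 10) / 25)).convs n := by
  rw [GenContFract.convs_succ, Int.fract, fl3, inv_aux (P' := 10) (Q' := 25) (by norm_num)
    (by norm_num) (by norm_num) (by norm_num)]
  norm_num

theorem fl4 : ⌊((Real.sqrt 375 + 10) / 25)⌋ = 1 := floor_aux (by norm_num) (by norm_num) (by norm_num)

theorem z4 : (GenContFract.of ((Real.sqrt 375 + 10) / 25)).convs 0 = 1 := by
  rw [GenContFract.zeroth_conv_eq_h, GenContFract.of_h_eq_floor, fl4]; norm_num

theorem st4 (n : ℕ) : (GenContFract.of ((Real.sqrt 375 + 10) / 25)).convs (n + 1) =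
    1 + 1 / (GenContFract.of ((Real.sqrt 375 + 15) / 6)).convs n := by
  rw [GenContFract.convs_succ, Int.fract, fl4, inv_aux (P' := 15) (Q' := 6) (by norm_num)
    (by norm_num) (by norm_num) (by norm_num)]
  norm_num

theorem fl5 : ⌊((Real.sqrt 375 + 15) / 6)⌋ = 5 := floor_aux (by norm_num) (by norm_num) (by norm_num)

theorem z5 : (GenContFract.of ((Real.sqrt 375 + 15) / 6)).convs 0 = 5 := by
  rw [GenContFract.zeroth_conv_eq_h, GenContFract.of_h_eq_floor, fl5]; norm_num

theorem st5 (n : ℕ) : (GenContFract.of ((Real.sqrt 375 + 15) / 6)).convs (n + 1) =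
    5 + 1 / (GenContFract.of ((Real.sqrt 375 + 15) / 25)).convs n := by
  rw [GenContFract.convs_succ, Int.fract, fl5, inv_aux (P' := 15) (Q' := 25) (by norm_num)
    (by norm_num) (by norm_num) (by norm_num)]
  norm_num

theorem fl6 : ⌊((Real.sqrt 375 + 15) / 25)⌋ = 1 := floor_aux (by norm_num) (by norm_num) (by norm_num)

theorem z6 : (GenContFract.of ((Real.sqrt 375 + 15) / 25)).convs 0 = 1 := by
  rw [GenContFract.zeroth_conv_eq_h, GenContFract.of_h_eq_floor, fl6]; norm_num

theorem st6 (n : ℕ) : (GenContFract.of ((Real.sqrt 375 + 15) / 25)).convs (n + 1) =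
    1 + 1 / (GenContFract.of ((Real.sqrt 375 + 10) / 11)).convs n := by
  rw [GenContFract.convs_succ, Int.fract, fl6, inv_aux (P' := 10) (Q' := 11) (by norm_num)
    (by norm_num) (by norm_num) (by norm_num)]
  norm_num

theorem fl7 : ⌊((Real.sqrt 375 + 10) / 11)⌋ = 2 := floor_aux (by norm_num) (by norm_num) (by norm_num)

theorem z7 : (GenContFract.of ((Real.sqrt 375 + 10) / 11)).convs 0 = 2 := by
  rw [GenContFract.zeroth_conv_eq_h, GenContFract.of_h_eq_floor, fl7]; norm_num

theorem st7 (n : ℕ) : (GenContFract.of ((Real.sqrt 375 + 10) / 11)).convs (n + 1) =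
    2 + 1 / (GenContFract.of ((Real.sqrt 375 + 12) / 21)).convs n := by
  rw [GenContFract.convs_succ, Int.fract, fl7, inv_aux (P' := 12) (Q' := 21) (by norm_num)
    (by norm_num) (by norm_num) (by norm_num)]
  norm_num

theorem fl8 : ⌊((Real.sqrt 375 + 12) / 21)⌋ = 1 := floor_aux (by norm_num) (by norm_num) (by norm_num)

theorem z8 : (GenContFract.of ((Real.sqrt 375 + 12) / 21)).convs 0 = 1 := by
  rw [GenContFract.zeroth_conv_eq_h, GenContFract.of_h_eq_floor, fl8]; norm_num

theorem st8 (n : ℕ) : (GenContFract.of ((Real.sqrt 375 + 12) / 21)).convs (n + 1) =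
    1 + 1 / (GenContFract.of ((Real.sqrt 375 + 9) / 14)).convs n := by
  rw [GenContFract.convs_succ, Int.fract, fl8, inv_aux (P' := 9) (Q' := 14) (by norm_num)
    (by norm_num) (by norm_num) (by norm_num)]
  norm_num

theorem fl9 : ⌊((Real.sqrt 375 + 9) / 14)⌋ = 2 := floor_aux (by norm_num) (by norm_num) (by norm_num)

theorem z9 : (GenContFract.of ((Real.sqrt 375 + 9) / 14)).convs 0 = 2 := by
  rw [GenContFract.zeroth_conv_eq_h, GenContFract.of_h_eq_floor, fl9]; norm_num

theorem st9 (n : ℕ) : (GenContFract.of ((Real.sqrt 375 + 9) / 14)).convs (n + 1) =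
    2 + 1 / (GenContFract.of ((Real.sqrt 375 + 19) / 1)).convs n := by
  rw [GenContFract.convs_succ, Int.fract, fl9, inv_aux (P' := 19) (Q' := 1) (by norm_num)
    (by norm_num) (by norm_num) (by norm_num)]
  norm_num

theorem cv0 : conv 375 0 = 19 / 1 := by
  rw [conv_eq]
  rw [z0]
  norm_num

theorem cv1 : conv 375 1 = 39 / 2 := by
  rw [conv_eq]
  rw [st0, z1]
  norm_num

theorem cv2 : conv 375 2 = 58 / 3 := by
  rw [conv_eq]
  rw [st0, st1, z2]
  norm_num

theorem cv3 : conv 375 3 = 155 / 8 := by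
  rw [conv_eq]
  rw [st0, st1, st2, z3]
  norm_num

theorem cv4 : conv 375 4 = 213 / 11 := by
  rw [conv_eq]
  rw [st0, st1, st2, st3, z4]
  norm_num

theorem cv5 : conv 375 5 = 1220 / 63 := by
  rw [conv_eq]
  rw [st0, st1, st2, st3, st4, z5]
  norm_num

theorem cv6 : conv 375 6 = 1433 / 74 := by
  rw [conv_eq]
  rw [st0, st1, st2, st3, st4, st5, z6]
  norm_num

theorem cv7 : conv 375 7 = 4086 / 211 := by
  rw [conv_eq]
  rw [st0, st1, st2, st3, st4, st5, st6, z7]
  norm_num

theorem cv8 : conv 375 8 = 5519 / 285 := by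
  rw [conv_eq]
  rw [st0, st1, st2, st3, st4, st5, st6, st7, z8]
  norm_num

theorem cv9 : conv 375 9 = 15124 / 781 := by
  rw [conv_eq]
  rw [st0, st1, st2, st3, st4, st5, st6, st7, st8, z9]
  norm_num

theorem it0 : orbit 375 (155 / 8) 0 = 155 / 8 := by rw [orbit]

theorem it1 : orbit 375 (155 / 8) 1 = 9605 / 496 := by
  rw [orbit, it0]; norm_num

theorem it2 : orbit 375 (155 / 8) 2 = 595355 / 30744 := by
  rw [orbit, it1]; norm_num

theorem it3 : orbit 375 (155 / 8) 3 = 36902405 / 1905632 := by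
  rw [orbit, it2]; norm_num

theorem it4 : orbit 375 (155 / 8) 4 = 457470751 / 23623688 := by
  rw [orbit, it3]; norm_num

theorem pell_iff {k P Q : ℕ} (hP : 0 < P) (hQ : 0 < Q) (hc : Nat.Coprime P Q) :
    Pellian k ((P : ℝ) / Q) ↔
      ((P : ℤ) ^ 2 - k * (Q : ℤ) ^ 2 = 1 ∨ (P : ℤ) ^ 2 - k * (Q : ℤ) ^ 2 = -1) := by
  constructor
  · rintro ⟨p, q, hp, hq, hpq, h, hx⟩
    have hQ' : (Q : ℝ) ≠ 0 := by exact_mod_cast hQ.ne'
    have hq' : (q : ℝ) ≠ 0 := by exact_mod_cast hq.ne'
    rw [div_eq_div_iff hQ' hq'] at hx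
    have hx' : P * q = p * Q := by exact_mod_cast hx
    have h1 : P ∣ p := hc.dvd_of_dvd_mul_right ⟨q, hx'.symm⟩
    have h2 : p ∣ P := hpq.dvd_of_dvd_mul_right ⟨Q, hx'⟩
    have h3 : P = p := Nat.dvd_antisymm h1 h2
    subst h3
    have h4 : q = Q := Nat.eq_of_mul_eq_mul_left hP hx'
    subst h4
    exact h
  · intro h
    exact ⟨P, Q, hP, hQ, hc, h, rfl⟩

theorem not_int_aux {x : ℝ} (a : ℤ) (h1 : (a : ℝ) < x) (h2 : x < a + 1) : ¬ IsInt x := by
  rintro ⟨z, rfl⟩
  have h3 : a < z := by exact_mod_cast h1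
  have h4 : z < a + 1 := by exact_mod_cast h2
  omega

/-- For `k = 375` the first Pellian iterate is not the first Pellian convergent. -/
theorem result : ∃ k : ℕ, 0 < k ∧ ¬ IsSquare k ∧ ∃ d x y : ℝ, IsSeed k d ∧
    IsFirstPellianConvergent k x ∧ IsFirstPellianIterate k d y ∧ x ≠ y := by
  refine ⟨375, by norm_num, ?_, 155 / 8, 15124 / 781, 457470751 / 23623688, ?_, ?_, ?_, ?_⟩
  · rintro ⟨r, hr⟩
    have h1 : r < 20 := by nlinarith
    interval_cases r <;> omega
  · refine ⟨3, cv3.symm, ?_, ?_⟩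
    · rw [cv3]; exact ⟨-3844, by unfold R; norm_num⟩
    · intro j hj
      interval_cases j
      · rw [cv0]; exact not_int_aux 103 (by unfold R; norm_num) (by unfold R; norm_num)
      · rw [cv1]; exact not_int_aux (-290) (by unfold R; norm_num) (by unfold R; norm_num)
      · rw [cv2]; exact not_int_aux 1223 (by unfold R; norm_num) (by unfold R; norm_num)
  · refine ⟨9, cv9.symm, ?_, ?_⟩
    · rw [cv9]
      exact ⟨15124, 781, by norm_num, by norm_num, by norm_num, by norm_num, by norm_num⟩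
    · intro j hj
      interval_cases j
      · rw [cv0]
        exact fun h => absurd ((pell_iff (k := 375) (P := 19) (Q := 1) (by norm_num) (by norm_num)
          (by norm_num)).mp (by norm_num at h ⊢; exact h)) (by norm_num)
      · rw [cv1]
        exact fun h => absurd ((pell_iff (k := 375) (P := 39) (Q := 2) (by norm_num) (by norm_num)
          (by norm_num)).mp (by norm_num at h ⊢; exact h)) (by norm_num)
      · rw [cv2]
        exact fun h => absurd ((pell_iff (k := 375) (P := 58) (Q := 3) (by norm_num) (by norm_num)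
          (by norm_num)).mp (by norm_num at h ⊢; exact h)) (by norm_num)
      · rw [cv3]
        exact fun h => absurd ((pell_iff (k := 375) (P := 155) (Q := 8) (by norm_num) (by norm_num)
          (by norm_num)).mp (by norm_num at h ⊢; exact h)) (by norm_num)
      · rw [cv4]
        exact fun h => absurd ((pell_iff (k := 375) (P := 213) (Q := 11) (by norm_num) (by norm_num)
          (by norm_num)).mp (by norm_num at h ⊢; exact h)) (by norm_num)
      · rw [cv5]
        exact fun h => absurd ((pell_iff (k := 375) (P := 1220) (Q := 63) (by norm_num) (by norm_num)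
          (by norm_num)).mp (by norm_num at h ⊢; exact h)) (by norm_num)
      · rw [cv6]
        exact fun h => absurd ((pell_iff (k := 375) (P := 1433) (Q := 74) (by norm_num) (by norm_num)
          (by norm_num)).mp (by norm_num at h ⊢; exact h)) (by norm_num)
      · rw [cv7]
        exact fun h => absurd ((pell_iff (k := 375) (P := 4086) (Q := 211) (by norm_num) (by norm_num)
          (by norm_num)).mp (by norm_num at h ⊢; exact h)) (by norm_num)
      · rw [cv8]
        exact fun h => absurd ((pell_iff (k := 375) (P := 5519) (Q := 285) (by norm_num) (by norm_num)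
          (by norm_num)).mp (by norm_num at h ⊢; exact h)) (by norm_num)
  · refine ⟨4, it4.symm, ?_, ?_⟩
    · rw [it4]
      exact ⟨457470751, 23623688, by norm_num, by norm_num, by norm_num, by norm_num, by norm_num⟩
    · intro j hj
      interval_cases j
      · rw [it0]
        exact fun h => absurd ((pell_iff (k := 375) (P := 155) (Q := 8) (by norm_num)
          (by norm_num) (by norm_num)).mp (by norm_num at h ⊢; exact h)) (by norm_num)
      · rw [it1]
        exact fun h => absurd ((pell_iff (k := 375) (P := 9605) (Q := 496) (by norm_num)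
          (by norm_num) (by norm_num)).mp (by norm_num at h ⊢; exact h)) (by norm_num)
      · rw [it2]
        exact fun h => absurd ((pell_iff (k := 375) (P := 595355) (Q := 30744) (by norm_num)
          (by norm_num) (by norm_num)).mp (by norm_num at h ⊢; exact h)) (by norm_num)
      · rw [it3]
        exact fun h => absurd ((pell_iff (k := 375) (P := 36902405) (Q := 1905632) (by norm_num)
          (by norm_num) (by norm_num)).mp (by norm_num at h ⊢; exact h)) (by norm_num)
  · norm_num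

end Pool.Agent.Results.MP_c624c9_nt.FirstPellianIterate
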